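import Pool.Agent.Run7.h798.PLMain

/-!
The natural map from the homology of the discrete group of piecewise linear homeomorphisms of
`M` to the homology of the classifying space of the simplicial group depends, as far as
bijectivity is concerned, only on the components of `M` with finite orbit.
-/

namespace Pool.Agent.Results.MP_5da87f_gt.InfiniteRepetition

open Run7.h798

/-- For a piecewise linear manifold `M`, a commutative ring `A` and a degree `k`, the natural map
in degree `k` is bijective for `M` if and only if the union of the components of `M` with finite
orbit is empty or the natural map in degree `k` is bijective for this union. -/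
theorem result (d : ℕ) (M : Type) [TopologicalSpace M] [T2Space M] [SecondCountableTopology M]
    [ChartedSpace (HSp d) M] [HasGroupoid M (plGroupoid d)] (A : Type) [CommRing A] (k : ℕ) :
    NatBij A (PLs d M) k ↔ (finPart d M = ⊥ ∨ NatBij A (PLs d (finPart d M)) k) := by
  constructor
  · intro h
    exact Or.inr ((main_iff d M A k).1 h)
  · rintro (h | h)
    · exact main_triv d M A k h
    · exact (main_iff d M A k).2 h

end Pool.Agent.Results.MP_5da87f_gt.InfiniteRepetition
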